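import Pool.Agent.LRG.StmtsE

/-!
# LRG row BLI: the case of a block sum which is not real (helper49)
-/

set_option autoImplicit false

open Polynomial NumberField

namespace Pool.Agent.LRG.H49

open Pool.Agent.LRG Pool.Agent.LRG.E

theorem theta_integral {r₁ r₂ t : ℕ} {x : Ro r₁ r₂ → ℂ} {K : Type} [Field K] [NumberField K]
    {θ : K} {e : Ro r₁ r₂ ≃ (K →+* ℂ)} (h : Fld r₁ r₂ t x K θ e) : IsIntegral ℤ θ := by
  have hmon : (Gp r₁ r₂ t - 1).Monic := by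
    refine Polynomial.monic_of_injective (f := Int.castRingHom ℂ) Int.cast_injective ?_
    rw [h.rts.prod]
    exact monic_prod_of_monic _ _ fun o _ => monic_X_sub_C _
  exact ⟨_, hmon, h.root⟩

/-- the degree of a proper subfield is at most half of the degree -/
theorem two_mul_deg {K : Type} [Field K] [NumberField K] (M : IntermediateField ℚ K)
    (hM : M ≠ ⊤) : 2 * Module.finrank ℚ M ≤ Module.finrank ℚ K := by
  have h1 := Module.finrank_mul_finrank ℚ M K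
  have h2 : Module.finrank M K ≠ 1 := fun h => hM (IntermediateField.finrank_eq_one_iff_eq_top.mp h)
  have h3 : 0 < Module.finrank M K := Module.finrank_pos
  have h4 : 2 ≤ Module.finrank M K := by omega
  rw [← h1, mul_comm]
  exact Nat.mul_le_mul_left _ h4

theorem bli : BliStmt := by
  classical
  intro hTRA hBLC hTRE hSPC hNIZ r₁ r₂ t x K _ _ θ e hF hBig h3 M hM τ₀ hB
  have htra := hTRA hBLC hTRE hSPC r₁ r₂ t x K θ e hF hBig h3 M
  obtain ⟨-, -, -, hconj⟩ := hBLC hTRE r₁ r₂ t x K θ e hF M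
  obtain ⟨ht4, hbig⟩ := hBig
  have hdeg := hF.deg
  obtain ⟨n, hn⟩ : ∃ n : ℕ, n = r₁ + 2 * r₂ := ⟨_, rfl⟩
  rw [← hn] at htra hbig hdeg
  have hn3 : 3 ≤ n := by omega
  have hn3' : (3 : ℝ) ≤ n := by exact_mod_cast hn3
  have ht4' : (4 : ℝ) ≤ t := by exact_mod_cast ht4
  obtain ⟨b, hb⟩ : ∃ b : ℝ, b = bd r₁ r₂ := ⟨_, rfl⟩
  rw [← hb] at htra hbig
  have hb2 : 2 ≤ b := by
    rw [hb]
    unfold bd
    have : (1 : ℝ) ≤ 5 ^ (r₁ + r₂) := one_le_pow₀ (by norm_num)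
    linarith
  obtain ⟨A, hA⟩ : ∃ A : ℤ, A = zre t e M τ₀ := ⟨_, rfl⟩
  obtain ⟨B, hBB⟩ : ∃ B : ℤ, B = zim t e M τ₀ := ⟨_, rfl⟩
  rw [← hBB] at hB
  obtain ⟨s, hs⟩ : ∃ s : M, s = Algebra.trace M K θ := ⟨_, rfl⟩
  rw [← hA, ← hBB, ← hs]
  have htra0 := htra τ₀
  rw [← hs, ← hA, ← hBB] at htra0
  obtain ⟨h01, hE2, -, h04⟩ := htra0
  have hts : ∀ τ : M →+* ℂ, ‖τ s‖ ≤ 2 * n * b * t := fun τ => by
    have := (htra τ).2.2.1
    rwa [← hs] at this
  obtain ⟨E, hE⟩ : ∃ E : ℝ, E = (n : ℝ) / ((t : ℝ) - 1) ^ (n - 1) := ⟨_, rfl⟩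
  rw [← hE] at h01 hE2
  obtain ⟨Y, hY⟩ : ∃ Y : ℝ, Y = 8 * n * b * t := ⟨_, rfl⟩
  rw [← hY] at hbig
  have htm : (0 : ℝ) < ((t : ℝ) - 1) ^ (n - 1) := by
    have : (0 : ℝ) < (t : ℝ) - 1 := by linarith
    positivity
  have hE0 : 0 < E := by
    rw [hE]
    positivity
  have hnbt : 0 ≤ (n : ℝ) * b * t := by positivity
  have hY1 : 1 ≤ Y := by
    rw [hY]
    have h1 : (1 : ℝ) ≤ n * b := by nlinarith
    have h2 : (1 : ℝ) ≤ n * b * t := by nlinarith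
    linarith
  have hYE : E * Y ^ (n - 2) < 1 := by
    rw [hE, div_mul_eq_mul_div, div_lt_one htm]
    exact hbig
  obtain ⟨z, hz⟩ : ∃ z : ℂ, z = (A : ℂ) + (B : ℂ) * Complex.I := ⟨_, rfl⟩
  rw [← hz] at h01 h04
  have hzc : (starRingEnd ℂ) z = (A : ℂ) - (B : ℂ) * Complex.I := by
    rw [hz]
    simp [sub_eq_add_neg]
  have hzcn : ‖(starRingEnd ℂ) z‖ ≤ n * b * t := by
    rw [Complex.norm_conj]
    exact h04
  have hval : ∀ τ : M →+* ℂ, τ ((s - (A : M)) ^ 2 + (B : M) ^ 2) =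
      (τ s - z) * (τ s - (starRingEnd ℂ) z) := by
    intro τ
    rw [map_add, map_pow, map_pow, map_sub, map_intCast, map_intCast, hzc, hz]
    have hI : Complex.I ^ 2 = -1 := Complex.I_sq
    linear_combination ((B : ℂ) ^ 2) * hI
  have hbound : ∀ τ : M →+* ℂ, ‖τ s - (starRingEnd ℂ) z‖ ≤ Y := by
    intro τ
    have h1 := norm_sub_le (τ s) ((starRingEnd ℂ) z)
    have h2 := hts τ
    rw [hY]
    linarith
  have hbound' : ∀ τ : M →+* ℂ, ‖τ s - z‖ ≤ Y := by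
    intro τ
    have h1 := norm_sub_le (τ s) z
    have h2 := hts τ
    rw [hY]
    linarith
  obtain ⟨cc, hcc⟩ : ∃ cc : M, cc = (s - (A : M)) ^ 2 + (B : M) ^ 2 := ⟨_, rfl⟩
  rw [← hcc]
  have hvn : ∀ τ : M →+* ℂ, ‖τ cc‖ = ‖τ s - z‖ * ‖τ s - (starRingEnd ℂ) z‖ := fun τ => by
    rw [hcc, hval, norm_mul]
  have hv0 : ‖τ₀ cc‖ ≤ E * Y := by
    rw [hvn]
    exact mul_le_mul h01 (hbound _) (norm_nonneg _) hE0.le
  have hvc : ‖ComplexEmbedding.conjugate τ₀ cc‖ ≤ E * Y := by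
    rw [ComplexEmbedding.conjugate_coe_eq, Complex.norm_conj]
    exact hv0
  have hvall : ∀ τ : M →+* ℂ, ‖τ cc‖ ≤ Y ^ 2 := fun τ => by
    rw [hvn, pow_two]
    exact mul_le_mul (hbound' _) (hbound _) (norm_nonneg _) (by linarith)
  have hne : ComplexEmbedding.conjugate τ₀ ≠ τ₀ := by
    intro h
    have h1 := (hconj τ₀).2
    rw [h, ← hBB] at h1
    omega
  have hint : IsIntegral ℤ cc := by
    rw [hcc]
    have hsi : IsIntegral ℤ s := by
      rw [hs]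
      exact Algebra.isIntegral_trace (theta_integral hF)
    refine ((hsi.sub ?_).pow 2).add (IsIntegral.pow ?_ 2)
    · exact isIntegral_algebraMap (R := ℤ) (x := A)
    · exact isIntegral_algebraMap (R := ℤ) (x := B)
  refine hNIZ M cc hint ?_
  rw [norm_prod]
  have hcard : Fintype.card (M →+* ℂ) = Module.finrank ℚ M := Embeddings.card M ℂ
  have h2m := two_mul_deg M hM
  rw [hdeg] at h2m
  have hmem1 : τ₀ ∈ (Finset.univ : Finset (M →+* ℂ)) := Finset.mem_univ _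
  have hmem2 : ComplexEmbedding.conjugate τ₀ ∈
      (Finset.univ : Finset (M →+* ℂ)).erase τ₀ := Finset.mem_erase.mpr ⟨hne, Finset.mem_univ _⟩
  rw [← Finset.mul_prod_erase _ _ hmem1, ← Finset.mul_prod_erase _ _ hmem2]
  have hrest : ∏ τ ∈ ((Finset.univ : Finset (M →+* ℂ)).erase τ₀).erase
      (ComplexEmbedding.conjugate τ₀), ‖τ cc‖ ≤ (Y ^ 2) ^ (Module.finrank ℚ M - 2) := by
    have h1 : ∏ τ ∈ ((Finset.univ : Finset (M →+* ℂ)).erase τ₀).erase
        (ComplexEmbedding.conjugate τ₀), ‖τ cc‖ ≤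
        ∏ _τ ∈ ((Finset.univ : Finset (M →+* ℂ)).erase τ₀).erase
          (ComplexEmbedding.conjugate τ₀), Y ^ 2 :=
      Finset.prod_le_prod (fun _ _ => norm_nonneg _) fun τ _ => hvall τ
    rw [Finset.prod_const, Finset.card_erase_of_mem hmem2, Finset.card_erase_of_mem hmem1,
      Finset.card_univ, hcard] at h1
    exact h1
  have hm2 : 2 ≤ Module.finrank ℚ M := by
    rw [← hcard]
    exact Fintype.one_lt_card_iff.mpr ⟨_, _, hne⟩
  have hEY0 : 0 ≤ E * Y := by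
    have : 0 ≤ Y := by linarith
    positivity
  have hrest0 : 0 ≤ ∏ τ ∈ ((Finset.univ : Finset (M →+* ℂ)).erase τ₀).erase
      (ComplexEmbedding.conjugate τ₀), ‖τ cc‖ := Finset.prod_nonneg fun _ _ => norm_nonneg _
  have hY0 : 0 ≤ Y := by linarith
  calc ‖τ₀ cc‖ * (‖ComplexEmbedding.conjugate τ₀ cc‖ *
        ∏ τ ∈ ((Finset.univ : Finset (M →+* ℂ)).erase τ₀).erase
          (ComplexEmbedding.conjugate τ₀), ‖τ cc‖)
      ≤ (E * Y) * ((E * Y) * (Y ^ 2) ^ (Module.finrank ℚ M - 2)) := by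
        refine mul_le_mul hv0 ?_ (mul_nonneg (norm_nonneg _) hrest0) hEY0
        exact mul_le_mul hvc hrest hrest0 hEY0
    _ = E * (E * Y ^ (2 + 2 * (Module.finrank ℚ M - 2))) := by
        rw [pow_add, pow_mul]
        ring
    _ ≤ E * (E * Y ^ (n - 2)) := by
        have h1 : Y ^ (2 + 2 * (Module.finrank ℚ M - 2)) ≤ Y ^ (n - 2) :=
          pow_le_pow_right₀ hY1 (by omega)
        exact mul_le_mul_of_nonneg_left (mul_le_mul_of_nonneg_left h1 hE0.le) hE0.le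
    _ < E * 1 := mul_lt_mul_of_pos_left hYE hE0
    _ < 1 := by linarith

end Pool.Agent.LRG.H49
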