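import Pool.Agent.LRG.StmtsE

/-!
# LRG row LWF: many primitive fields of small regulator (helper49)
-/

set_option autoImplicit false

open Polynomial NumberField

namespace Pool.Agent.LRG.H49

open Pool.Agent.LRG Pool.Agent.LRG.E

/-- the regulator bound, numbers only -/
theorem lwf_reg (r n t N : ℕ) (b c y : ℝ) (hr : 1 ≤ r) (hn : 1 ≤ n) (hb : 2 ≤ b)
    (hc : c = 1 / (4 * n * r.factorial)) (ht1 : 1 ≤ t) (ht : t ≤ 2 * N) (hy : 0 ≤ y)
    (hN : (N : ℝ) ≤ Real.exp (c * y)) (hlog : Real.log (6 * b) ≤ c * y) :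
    (r.factorial : ℝ) * (2 * (n : ℝ) * Real.log (3 * b * t)) ^ r ≤ y ^ r := by
  have hn' : (0 : ℝ) < n := by exact_mod_cast hn
  have hf1 : (1 : ℝ) ≤ r.factorial := by
    have e0 : 1 ≤ r.factorial := Nat.one_le_iff_ne_zero.mpr (Nat.factorial_ne_zero r)
    exact_mod_cast e0
  have hf0 : (0 : ℝ) < r.factorial := by linarith
  have ht1' : (1 : ℝ) ≤ t := by exact_mod_cast ht1
  have ht' : (t : ℝ) ≤ 2 * N := by exact_mod_cast ht
  have h3bt : 1 ≤ 3 * b * t := by nlinarith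
  have hl0 : 0 ≤ Real.log (3 * b * t) := Real.log_nonneg h3bt
  have hl1 : Real.log (3 * b * t) ≤ 2 * (c * y) := by
    have h1 : 3 * b * t ≤ 6 * b * Real.exp (c * y) := by
      have h2 : (t : ℝ) ≤ 2 * Real.exp (c * y) := by linarith
      nlinarith
    have h2 := Real.log_le_log (by linarith) h1
    rw [Real.log_mul (by positivity) (Real.exp_pos _).ne', Real.log_exp] at h2
    linarith
  have h4 : 2 * (n : ℝ) * Real.log (3 * b * t) ≤ y / r.factorial := by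
    have h5 : 2 * (n : ℝ) * Real.log (3 * b * t) ≤ 2 * n * (2 * (c * y)) :=
      mul_le_mul_of_nonneg_left hl1 (by positivity)
    refine h5.trans (le_of_eq ?_)
    rw [hc]
    field_simp
    ring
  have h6 : (2 * (n : ℝ) * Real.log (3 * b * t)) ^ r ≤ (y / r.factorial) ^ r :=
    pow_le_pow_left₀ (by positivity) h4 r
  have h7 : (r.factorial : ℝ) ≤ (r.factorial : ℝ) ^ r := le_self_pow₀ hf1 (by omega)
  calc (r.factorial : ℝ) * (2 * (n : ℝ) * Real.log (3 * b * t)) ^ r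
      ≤ r.factorial * (y / r.factorial) ^ r := mul_le_mul_of_nonneg_left h6 hf0.le
    _ = (r.factorial / (r.factorial : ℝ) ^ r) * y ^ r := by
        rw [div_pow]
        ring
    _ ≤ 1 * y ^ r := by
        refine mul_le_mul_of_nonneg_right ?_ (by positivity)
        rw [div_le_one (by positivity)]
        exact h7
    _ = y ^ r := one_mul _

/-- the count, numbers only -/
theorem lwf_count (N : ℕ) (c₁ c₂ y : ℝ) (hc₁ : 0 < c₁)
    (hN : Real.exp (c₂ * y) < N + 1) (hy : 1 / c₁ ≤ c₂ / 2 * y) :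
    Real.exp (c₂ / 2 * y) ≤ c₁ * N := by
  obtain ⟨E, hE⟩ : ∃ E : ℝ, E = Real.exp (c₂ / 2 * y) := ⟨_, rfl⟩
  have hEE : Real.exp (c₂ * y) = E * E := by
    rw [hE, ← Real.exp_add]
    congr 1
    ring
  have h1 : 1 / c₁ + 1 ≤ E := by
    rw [hE]
    have := Real.add_one_le_exp (c₂ / 2 * y)
    linarith
  have hE1 : 0 < E := by rw [hE]; exact Real.exp_pos _
  rw [← hE]
  rw [hEE] at hN
  have h2 : 1 ≤ c₁ * (E - 1) := by
    have h3 : 1 / c₁ ≤ E - 1 := by linarith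
    rw [div_le_iff₀ hc₁] at h3
    linarith
  have h4 : E * E - 1 ≤ N := by linarith
  have h5 : c₁ * (E * E - 1) ≤ c₁ * N := mul_le_mul_of_nonneg_left h4 hc₁.le
  have h6 : E + 1 ≤ c₁ * (E - 1) * (E + 1) := le_mul_of_one_le_left (by linarith) h2
  nlinarith

theorem lwf : LwfStmt := by
  intro hCOU hREB hTWO hNOI hPLA hBGT r₁ r₂ h3
  obtain ⟨c₁, N₀, hc₁, hN₀⟩ := hCOU r₁ r₂ (by omega)
  obtain ⟨t₀, ht₀⟩ := hBGT r₁ r₂ (by omega)
  obtain ⟨r, hr⟩ : ∃ r : ℕ, r = r₁ + r₂ - 1 := ⟨_, rfl⟩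
  have hr2 : 2 ≤ r := by omega
  have hrr : (r₁ : ℝ) + r₂ - 1 = r := by
    rw [hr, Nat.cast_sub (by omega)]
    push_cast
    ring
  obtain ⟨n, hn⟩ : ∃ n : ℕ, n = r₁ + 2 * r₂ := ⟨_, rfl⟩
  have hn3 : 3 ≤ n := by omega
  have hn' : (0 : ℝ) < n := by
    have : 0 < n := by omega
    exact_mod_cast this
  have hb2 : 2 ≤ bd r₁ r₂ := by
    unfold bd
    have : (1 : ℝ) ≤ 5 ^ (r₁ + r₂) := one_le_pow₀ (by norm_num)
    linarith
  have hf0 : (0 : ℝ) < r.factorial := by exact_mod_cast Nat.factorial_pos r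
  obtain ⟨c₂, hc₂⟩ : ∃ c₂ : ℝ, c₂ = 1 / (4 * n * r.factorial) := ⟨_, rfl⟩
  have hc₂0 : 0 < c₂ := by
    rw [hc₂]
    positivity
  have hl6 : 0 ≤ Real.log (6 * bd r₁ r₂) := Real.log_nonneg (by linarith)
  obtain ⟨y₀, hy₀⟩ : ∃ y₀ : ℝ, y₀ = 1 + Real.log (6 * bd r₁ r₂) / c₂ + 2 / (c₁ * c₂) +
    ((N₀ + t₀ + 4 : ℕ) : ℝ) / c₂ := ⟨_, rfl⟩
  have hp1 : 0 ≤ Real.log (6 * bd r₁ r₂) / c₂ := by positivity
  have hp2 : 0 ≤ 2 / (c₁ * c₂) := by positivity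
  have hp3 : 0 ≤ ((N₀ + t₀ + 4 : ℕ) : ℝ) / c₂ := by positivity
  have hy₀1 : 1 ≤ y₀ := by rw [hy₀]; linarith
  refine ⟨c₂ / 2, y₀ ^ r, by positivity, ?_⟩
  intro T hT
  rw [hrr]
  obtain ⟨y, hy⟩ : ∃ y : ℝ, y = T ^ (1 / (r : ℝ)) := ⟨_, rfl⟩
  rw [← hy]
  have hr0 : (r : ℝ) ≠ 0 := by
    have : r ≠ 0 := by omega
    exact_mod_cast this
  have hT0 : 0 ≤ T := le_trans (by positivity) hT
  have hyT : y ^ r = T := by
    rw [hy, ← Real.rpow_natCast, ← Real.rpow_mul hT0, one_div, inv_mul_cancel₀ hr0, Real.rpow_one]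
  have hyy : y₀ ≤ y := by
    have hy0 : 0 ≤ y := by
      rw [hy]
      exact Real.rpow_nonneg hT0 _
    refine (pow_le_pow_iff_left₀ (by linarith) hy0 (by omega : r ≠ 0)).mp ?_
    rw [hyT]
    exact hT
  have hy0 : 0 ≤ y := by linarith
  have hq1 : Real.log (6 * bd r₁ r₂) ≤ c₂ * y := by
    have h1 : Real.log (6 * bd r₁ r₂) / c₂ ≤ y := by linarith
    rw [div_le_iff₀ hc₂0] at h1
    linarith
  have hq2 : 1 / c₁ ≤ c₂ / 2 * y := by
    have h1 : 2 / (c₁ * c₂) ≤ y := by linarith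
    have h2 : c₂ / 2 * (2 / (c₁ * c₂)) ≤ c₂ / 2 * y := mul_le_mul_of_nonneg_left h1 (by positivity)
    have h3 : c₂ / 2 * (2 / (c₁ * c₂)) = 1 / c₁ := by field_simp
    linarith
  have hq3 : ((N₀ + t₀ + 4 : ℕ) : ℝ) ≤ c₂ * y := by
    have h1 : ((N₀ + t₀ + 4 : ℕ) : ℝ) / c₂ ≤ y := by linarith
    rw [div_le_iff₀ hc₂0] at h1
    linarith
  obtain ⟨N, hN⟩ : ∃ N : ℕ, N = ⌊Real.exp (c₂ * y)⌋₊ := ⟨_, rfl⟩
  have hNle : (N : ℝ) ≤ Real.exp (c₂ * y) := by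
    rw [hN]
    exact Nat.floor_le (Real.exp_pos _).le
  have hNlt : Real.exp (c₂ * y) < N + 1 := by
    rw [hN]
    exact Nat.lt_floor_add_one _
  have hNbig : N₀ + t₀ + 4 ≤ N := by
    rw [hN]
    refine Nat.le_floor ?_
    have := Real.add_one_le_exp (c₂ * y)
    linarith
  obtain ⟨S, hScard, hS⟩ := hN₀ N (by omega)
  refine ⟨S, ?_, (lwf_count N c₁ c₂ y hc₁ hNlt hq2).trans hScard⟩
  intro K hK
  obtain ⟨hNF, t, x, θ, e, hNt, ht2, hF⟩ := hS K hK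
  have hBig : Big r₁ r₂ t := ht₀ t (by omega)
  obtain ⟨-, hre, hco⟩ := hPLA r₁ r₂ t x K θ e hF
  refine ⟨hNF, hre, hco, ?_, ?_⟩
  · intro E
    by_contra hcon
    rw [not_or] at hcon
    obtain ⟨ι, hι⟩ := hTWO r₁ r₂ t x K θ e hF hBig h3 E hcon.2 hcon.1
    exact hNOI r₁ r₂ t x K θ e hF hBig h3 ι hι
  · have h1 := hREB r₁ r₂ t x K θ e hF (by omega) (by omega)
    rw [← hr, ← hn] at h1
    refine h1.trans ?_
    rw [← hyT]
    exact lwf_reg r n t N _ c₂ y (by omega) (by omega) hb2 hc₂ (by omega) ht2 hy0 hNle hq1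

end Pool.Agent.LRG.H49
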