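import Pool.Agent.LRG.StmtsE

/-!
# LRG row TWO: a proper subfield forces a square root of `-1` (helper49)
-/

set_option autoImplicit false

open Polynomial NumberField

namespace Pool.Agent.LRG.H49

open Pool.Agent.LRG Pool.Agent.LRG.E

theorem two : TwoStmt := by
  classical
  intro hBLR hBLI hTRA hBLC hTRE hSPC hNIZ hSUB hFIV r₁ r₂ t x K _ _ θ e hF hBig h3 M hM hM'
  obtain ⟨hdis, -, hcard, -⟩ := hBLC hTRE r₁ r₂ t x K θ e hF M
  obtain ⟨τ₀⟩ : Nonempty (M →+* ℂ) := inferInstance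
  by_cases hB : zim t e M τ₀ = 0
  · exfalso
    have hblr := hBLR hTRA hBLC hTRE hSPC hNIZ r₁ r₂ t x K θ e hF hBig h3 M hM τ₀ hB
    have h2 : 1 < Fintype.card (M →+* ℂ) := by
      rw [Embeddings.card M ℂ]
      have h1 : Module.finrank ℚ M ≠ 1 := fun h => hM' (IntermediateField.finrank_eq_one_iff.mp h)
      have h2 : 0 < Module.finrank ℚ M := Module.finrank_pos
      omega
    obtain ⟨τ₁, hτ₁⟩ := Fintype.exists_ne_of_one_lt_card h2 τ₀
    have ht : (t : ℤ) ≠ 0 := by
      have := hBig.1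
      omega
    obtain ⟨β, hβ⟩ : ∃ β : Ro r₁ r₂ → ℤ, β = fun o =>
      (if o ∈ blk e M τ₀ then (1 : ℤ) else 0) - (if o ∈ blk e M τ₁ then (1 : ℤ) else 0) :=
      ⟨_, rfl⟩
    have hsum : ∀ f : Ro r₁ r₂ → ℤ,
        (t : ℤ) * ∑ o, β o * f o = ∑ o ∈ blk e M τ₀, (t : ℤ) * f o -
          ∑ o ∈ blk e M τ₁, (t : ℤ) * f o := by
      intro f
      have e0 : ∀ τ : M →+* ℂ, ∑ o ∈ blk e M τ, (t : ℤ) * f o =
          (t : ℤ) * ∑ o, (if o ∈ blk e M τ then (1 : ℤ) else 0) * f o := by
        intro τ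
        rw [← Finset.mul_sum]
        congr 1
        simp only [ite_mul, one_mul, zero_mul]
        rw [Finset.sum_ite_mem, Finset.univ_inter]
      rw [e0, e0, ← mul_sub, ← Finset.sum_sub_distrib, hβ]
      congr 1
      refine Finset.sum_congr rfl fun o _ => ?_
      ring
    have hre : ∑ o, β o * omre o = 0 := by
      have h4 := hsum omre
      have h5 := (hblr τ₁).1
      unfold zre at h5
      rw [← h5, sub_self] at h4
      exact (mul_eq_zero.mp h4).resolve_left ht
    have him : ∑ o, β o * omim o = 0 := by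
      have h4 := hsum omim
      have h5 := (hblr τ₁).2
      unfold zim at h5 hB
      rw [h5, hB, sub_self] at h4
      exact (mul_eq_zero.mp h4).resolve_left ht
    have habs : ∀ o, |β o| ≤ 1 := by
      intro o
      rw [hβ]
      dsimp only
      split_ifs <;> norm_num
    have hz := hSUB hFIV r₁ r₂ β habs hre him
    have hpos : 0 < (blk e M τ₀).card := by
      rw [hcard]
      exact Module.finrank_pos
    obtain ⟨o, ho⟩ := Finset.card_pos.mp hpos
    have ho' : o ∉ blk e M τ₁ := fun h =>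
      (Finset.disjoint_left.mp (hdis τ₀ τ₁ (Ne.symm hτ₁))) ho h
    have h6 := hz o
    rw [hβ] at h6
    dsimp only at h6
    rw [if_pos ho, if_neg ho'] at h6
    norm_num at h6
  · have hbli := hBLI hTRA hBLC hTRE hSPC hNIZ r₁ r₂ t x K θ e hF hBig h3 M hM τ₀ hB
    have hB' : (zim t e M τ₀ : M) ≠ 0 := by exact_mod_cast hB
    refine ⟨algebraMap M K ((Algebra.trace M K θ - (zre t e M τ₀ : M)) / (zim t e M τ₀ : M)), ?_⟩
    rw [← map_pow, div_pow, eq_neg_of_add_eq_zero_left hbli, neg_div,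
      div_self (pow_ne_zero 2 hB'), map_neg, map_one]

end Pool.Agent.LRG.H49
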