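import Pool.Agent.LRG.StmtsD

/-!
# LRG row POL: counting algebraic integers with bounded conjugates (helper49)
-/

set_option autoImplicit false

open Polynomial NumberField Module

namespace Pool.Agent.LRG.H49

open Pool.Agent.LRG

/-- the monic polynomial with the coefficients `c` -/
noncomputable def PP (n : ℕ) (c : Fin n → ℤ) : ℤ[X] :=
  X ^ n + ∑ i : Fin n, C (c i) * X ^ (i : ℕ)

/-- its complex roots -/
noncomputable def RR (n : ℕ) (c : Fin n → ℤ) : Finset ℂ :=
  ((PP n c).map (Int.castRingHom ℂ)).roots.toFinset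

theorem natDegree_PP (n : ℕ) (c : Fin n → ℤ) : (PP n c).natDegree ≤ n := by
  unfold PP
  refine (natDegree_add_le _ _).trans (max_le (natDegree_X_pow_le n) ?_)
  refine natDegree_sum_le_of_forall_le _ _ fun i _ => ?_
  exact (natDegree_C_mul_X_pow_le _ _).trans i.2.le

theorem card_RR (n : ℕ) (c : Fin n → ℤ) : (RR n c).card ≤ n := by
  unfold RR
  refine (Multiset.toFinset_card_le _).trans ((card_roots' _).trans ?_)
  exact natDegree_map_le.trans (natDegree_PP n c)

theorem coeff_bound {n : ℕ} {X : ℝ} (hX : 1 ≤ X) {x : ℂ} (hint : IsIntegral ℤ x)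
    (hdeg : (minpoly ℚ x).natDegree = n)
    (hroots : ∀ z : ℂ, aeval z (minpoly ℚ x) = 0 → ‖z‖ ≤ X) (i : ℕ) :
    (|(minpoly ℤ x).coeff i| : ℝ) ≤ 2 ^ n * X ^ n := by
  have hmap := minpoly.isIntegrallyClosed_eq_field_fractions' ℚ hint
  have hq : IsIntegral ℚ x := hint.tower_top
  have h1 := coeff_bdd_of_roots_le (B := X) (d := n) (algebraMap ℚ ℂ) (minpoly.monic hq)
    (IsAlgClosed.splits _) hdeg.le (fun z hz => by
      refine hroots z ?_
      rw [mem_roots', IsRoot.def, eval_map_algebraMap] at hz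
      exact hz.2) i
  have h2 : X ^ n * (n.choose (n / 2) : ℝ) ≤ 2 ^ n * X ^ n := by
    have e1 : ((n.choose (n / 2) : ℕ) : ℝ) ≤ 2 ^ n := by
      exact_mod_cast Nat.choose_le_two_pow n (n / 2)
    have e2 : (0 : ℝ) ≤ X ^ n := by positivity
    nlinarith
  rw [max_eq_left hX] at h1
  refine le_trans (le_of_eq ?_) (h1.trans h2)
  rw [hmap, map_map, coeff_map]
  simp

theorem pol : D.PolStmt := by
  classical
  intro n X hn hX
  set B : ℕ := ⌊(2 : ℝ) ^ n * X ^ n⌋₊ with hB
  set S : Finset (Fin n → ℤ) := Fintype.piFinset (fun _ : Fin n => Finset.Icc (-(B : ℤ)) B)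
    with hS
  have hsub : D.AlgInt n X ⊆ ((S.biUnion (RR n) : Finset ℂ) : Set ℂ) := by
    rintro x ⟨hint, hdeg, hroots⟩
    have hmap := minpoly.isIntegrallyClosed_eq_field_fractions' ℚ hint
    have hmon := minpoly.monic hint
    have hnat : (minpoly ℤ x).natDegree = n := by
      rw [← hmon.natDegree_map (algebraMap ℤ ℚ), ← hmap]
      exact hdeg
    have hPP : minpoly ℤ x = PP n (fun i => (minpoly ℤ x).coeff i) := by
      have h1 := hmon.as_sum
      rw [hnat, Finset.sum_range] at h1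
      exact h1
    rw [Finset.mem_coe, Finset.mem_biUnion]
    refine ⟨fun i => (minpoly ℤ x).coeff i, ?_, ?_⟩
    · rw [hS, Fintype.mem_piFinset]
      intro i
      rw [Finset.mem_Icc, ← abs_le]
      have h1 := coeff_bound hX hint hdeg hroots i
      have h2 : ((|(minpoly ℤ x).coeff i| : ℤ).natAbs : ℝ) ≤ 2 ^ n * X ^ n := by
        rw [Nat.cast_natAbs, abs_abs]
        push_cast
        exact h1
      have h3 := Nat.le_floor h2
      rw [← hB] at h3
      have h4 : |(minpoly ℤ x).coeff i| = ((|(minpoly ℤ x).coeff i| : ℤ).natAbs : ℤ) := by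
        rw [Int.natCast_natAbs, abs_abs]
      rw [h4]
      exact_mod_cast h3
    · unfold RR
      rw [← hPP, Multiset.mem_toFinset, mem_roots']
      constructor
      · exact (hmon.map (Int.castRingHom ℂ)).ne_zero
      · rw [IsRoot.def, eval_map]
        exact minpoly.aeval ℤ x
  have hcard : (S.biUnion (RR n)).card ≤ S.card * n :=
    Finset.card_biUnion_le_card_mul _ _ _ fun c _ => card_RR n c
  have hScard : S.card = (2 * B + 1) ^ n := by
    rw [hS, Fintype.card_piFinset_const, Int.card_Icc]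
    congr 1
    omega
  refine ⟨(Finset.finite_toSet _).subset hsub, ?_⟩
  have h1 : (D.AlgInt n X).ncard ≤ (2 * B + 1) ^ n * n := by
    refine (Set.ncard_le_ncard hsub (Finset.finite_toSet _)).trans ?_
    rw [Set.ncard_coe_finset, ← hScard]
    exact hcard
  have h2 : ((2 * B + 1 : ℕ) : ℝ) ≤ 2 ^ (n + 2) * X ^ n := by
    have e1 : (B : ℝ) ≤ 2 ^ n * X ^ n := Nat.floor_le (by positivity)
    have e2 : (1 : ℝ) ≤ 2 ^ n * X ^ n := by
      have a1 : (1 : ℝ) ≤ 2 ^ n := one_le_pow₀ (by norm_num)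
      have a2 : (1 : ℝ) ≤ X ^ n := one_le_pow₀ hX
      nlinarith
    push_cast
    rw [pow_add]
    linarith
  have h3 : ((D.AlgInt n X).ncard : ℝ) ≤ ((2 * B + 1 : ℕ) : ℝ) ^ n * n := by
    exact_mod_cast h1
  refine h3.trans ?_
  rw [mul_comm]
  have h4 : ((2 * B + 1 : ℕ) : ℝ) ^ n ≤ (2 ^ (n + 2) * X ^ n) ^ n :=
    pow_le_pow_left₀ (Nat.cast_nonneg _) h2 n
  exact mul_le_mul_of_nonneg_left h4 (Nat.cast_nonneg n)

end Pool.Agent.LRG.H49
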